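import Pool.Agent.Helpers.FatPointFinal

set_option autoImplicit false

open MvPolynomial

namespace Pool.Agent.Results.MP_94ed3e_ag.FatPoint

universe u

/-- The `R`-module `M` is locally free of (finite, constant) rank `r`, i.e. it is finitely
generated, projective, and its stalk at every prime has rank `r`. -/
def LocallyFreeOfRank (R M : Type u) [CommRing R] [AddCommGroup M] [Module R M] (r : ℕ) : Prop :=
  Module.Finite R M ∧ Module.Projective R M ∧ ∀ p : PrimeSpectrum R, Module.rankAtStalk M p = r

/-- `I` is an `R`-point of the multigraded Hilbert scheme of `k[x_1, ..., x_n]`, graded by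
`deg x_i = deg i`, with Hilbert function `h`: the ideal `I` of `R[x_1, ..., x_n]` is homogeneous
(it contains the graded components of its elements) and for all `a` the degree `a` part
`(R[x])_a / I_a` of the quotient is a locally free `R`-module of rank `h a`. -/
def IsHilbPoint {n : ℕ} {A : Type} [AddCommGroup A] (deg : Fin n → A) (h : A → ℕ)
    (R : Type u) [CommRing R] (I : Ideal (MvPolynomial (Fin n) R)) : Prop :=
  (∀ f ∈ I, ∀ a : A, weightedHomogeneousComponent deg a f ∈ I) ∧
  ∀ a : A, LocallyFreeOfRank R
    (weightedHomogeneousSubmodule R deg a ⧸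
      (I.restrictScalars R).comap (weightedHomogeneousSubmodule R deg a).subtype) (h a)

/-- The `k`-algebra `B` represents the multigraded Hilbert functor: there is a universal ideal
`J`, a `B`-point, whose extension along every `k`-algebra map `B → R` is an `R`-point, and such
that every `R`-point is the extension of `J` along exactly one `k`-algebra map `B → R`. -/
def Represents (k : Type u) [Field k] {n : ℕ} {A : Type} [AddCommGroup A] (deg : Fin n → A)
    (h : A → ℕ) (B : Type u) [CommRing B] [Algebra k B] : Prop :=
  ∃ J : Ideal (MvPolynomial (Fin n) B), IsHilbPoint deg h B J ∧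
    ∀ (R : Type u) [CommRing R] [Algebra k R],
      (∀ φ : B →ₐ[k] R, IsHilbPoint deg h R (J.map (MvPolynomial.map (φ : B →+* R)))) ∧
      ∀ I : Ideal (MvPolynomial (Fin n) R), IsHilbPoint deg h R I →
        ∃! φ : B →ₐ[k] R, J.map (MvPolynomial.map (φ : B →+* R)) = I

/-- Over every field `k` some multigraded Hilbert scheme is `Spec B` for a local Artinian
`k`-algebra `B` that is not a field, i.e. is a fat point. -/
theorem result (k : Type u) [Field k] :
    ∃ (n : ℕ) (A : Type) (_ : AddCommGroup A) (deg : Fin n → A) (h : A → ℕ)
      (B : Type u) (_ : CommRing B) (_ : Algebra k B),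
      IsLocalRing B ∧ IsArtinianRing B ∧ Module.Finite k B ∧ ¬ IsField B ∧
      Represents k deg h B := by
  obtain ⟨h1, h2, h3, h4, h5, h6⟩ := FatPt.main k
  exact ⟨3, ℤ × ℤ, inferInstance, FatPt.dg, FatPt.hf, DualNumber k, inferInstance, inferInstance,
    h2, h1, h4, h3, FatPt.Il DualNumber.eps, h5, h6⟩

end Pool.Agent.Results.MP_94ed3e_ag.FatPoint
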